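import Pool.Agent.PSB.Main
import Pool.Agent.PSB.Final

namespace Pool.Agent.Helper25.Old.Lambda3

open Pool.Agent.PSB

/-- Two-sided bounds for `Λ_3(M)`, `1 < M < e`, which give the exact value of `Λ_3(M)` as soon as
`M + 4 log M ≤ 4`. -/
theorem result (M : ℝ) (hM : 1 < M) (hL : Real.log M < 1) :
    Lam 3 M ≤ 2 - 1 / M ^ 2 + Real.log M / (4 * (1 - Real.log M)) ∧
    (∀ σ : ℝ, 0 ≤ σ → σ ≤ 1 / M →
      2 - 1 / M ^ 2 + 2 * σ * Real.log M - 4 * σ ^ 2 * Real.log M * (1 - Real.log M) ≤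
        Lam 3 M) ∧
    (M + 4 * Real.log M ≤ 4 →
      Lam 3 M = 2 - 1 / M ^ 2 + Real.log M / (4 * (1 - Real.log M))) := by
  refine ⟨lam3_le ub3 hM hL, ?_, fun h2 => lam3_eq ub3 lb3 hM h2⟩
  intro σ h2 h3
  have h4 := le_lam3 lb3 hM h2 h3
  refine le_trans (le_of_eq ?_) h4
  ring

end Pool.Agent.Helper25.Old.Lambda3
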