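import Pool.Agent.DBR.Main

namespace Pool.Agent.Helper25.Old.LargeM

open Pool.Agent.PSB

/-- The exact value of `Λ_n(M)` for every `n ≥ 2` and every `M ≥ 10^5 n^16`. -/
theorem result (n : ℕ) (hn : 2 ≤ n) (M : ℝ) (hM : 10 ^ 5 * (n : ℝ) ^ 16 ≤ M) :
    Lam n M = ∑ m ∈ Finset.Icc 1 n,
      (-1 : ℝ) ^ (m - 1) * (catalan m : ℝ) * ((n + m).choose (2 * m) : ℝ) / M ^ (m - 1) :=
  Pool.Agent.DBR.t_fin n M hn hM

end Pool.Agent.Helper25.Old.LargeM
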